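import Pool.Agent.N110.Defs

/-!
Definition: rational maps which decrease the class of `K_X + Δ`.
-/

set_option autoImplicit false

open FF Pool.Agent.W602.GT Pool.Agent.Y172 Pool.Agent.R887

namespace Pool.Agent.Helper13SM

section

variable {K K' : Type} [Field K] [Algebra ℂ K] [Field K'] [Algebra ℂ K'] {N N' : ℕ}

/-- Let `f : X' ⇢ X` be the dominant generically finite rational map given by the homomorphism `π` of
the function fields. The class of `f^* (K_X + Δ)` is at most the class of `K_X' + Δ'`: the divisor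
`D = K_X' + Δ' - f^* (K_X + Δ)` on `X'` is pseudo-effective, that is, for some effective divisor `B`
the divisors `m D + B` are linearly equivalent to effective divisors for all `m ≥ 1`. Here the
multiplicity of `D` along a prime divisor `Q` of `X'` is `e α - (1 - Δ' Q)`, where the divisor `P`
over `X` is the image of `Q`, `e` the ramification index and `α` the log discrepancy of `(X, Δ)`
along `P`. -/
def PairClassLe (π : K →ₐ[ℂ] K') (y : Fin (N + 1) → K) (n : ℕ) (Δ : Place ℂ K → ℚ)
    (y' : Fin (N' + 1) → K') (Δ' : Place ℂ K' → ℚ) : Prop :=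
  ∃ B, Effective y' B ∧ ∀ m : ℕ, 1 ≤ m → ∃ h : K', h ≠ 0 ∧ ∀ Q : Place ℂ K', IsPrimeDivisor y' Q →
    ∀ (P : Place ℂ K) (e : ℕ), LiesOver π Q P e →
      ∃ α : ℚ, LogDisc y n Δ P α ∧ 0 ≤ (Q.ord h : ℚ) + m * (e * α - (1 - Δ' Q)) + B Q

end

end Pool.Agent.Helper13SM
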