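import Pool.Agent.Helper13SM.PDefs
import Pool.Agent.N110.DV.Defs
import Pool.Agent.N110.CanS
import Pool.Agent.N110.Can

/-!
Examples of rational maps which decrease the class of `K_X + Δ`.
-/

set_option autoImplicit false
set_option linter.overlappingInstances false
set_option linter.unusedSectionVars false

open FF Pool.Agent.W602.GT Pool.Agent.Y172 Pool.Agent.R887 Pool.Agent.N110 Pool.Agent.N110.DV

namespace Pool.Agent.Helper13SM

section

variable {K K' : Type} [Field K] [Algebra ℂ K] [Field K'] [Algebra ℂ K'] {N N' n : ℕ}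
  {y : Fin (N + 1) → K} {y' : Fin (N' + 1) → K'}

theorem eff_zero : Effective y (fun _ => (0 : ℚ)) :=
  ⟨fun _ _ => le_rfl, Set.finite_empty.subset (by rintro P ⟨-, h⟩; exact h rfl)⟩

theorem ram_one {φ : K ≃ₐ[ℂ] K} {P Q : Place ℂ K} {e : ℕ}
    (h : LiesOver (φ : K →ₐ[ℂ] K) Q P e) : e = 1 := by
  obtain ⟨t, ht0, ht⟩ := Q.surj
  have h1 := h.2 (φ.symm t)
  have h2 : (φ : K →ₐ[ℂ] K) (φ.symm t) = t := φ.apply_symm_apply t
  rw [h2, ht] at h1
  have h3 : (e : ℤ) ∣ 1 := ⟨_, h1⟩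
  have h4 : (e : ℤ) = 1 := by
    rcases Int.natAbs_dvd_natAbs.2 h3 with ⟨k, hk⟩
    have h5 : e * k = 1 := by simpa using hk.symm
    exact_mod_cast Nat.eq_one_of_mul_eq_one_right h5
  exact_mod_cast h4

/-- maps which preserve the divisor `K_X + Δ` -/
theorem pair_of_le {φ : K ≃ₐ[ℂ] K} {Δ : Place ℂ K → ℚ} (h : PullLe φ y n Δ) :
    PairClassLe (φ : K →ₐ[ℂ] K) y n Δ y Δ := by
  refine ⟨_, eff_zero, fun m hm => ⟨1, one_ne_zero, fun Q hQ P e hPe => ?_⟩⟩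
  obtain rfl := ram_one hPe
  obtain ⟨α, h1, h2⟩ := h Q hQ P fun g => by
    have := hPe.2 g
    rw [Nat.cast_one, one_mul] at this
    exact this.symm
  refine ⟨α, h1, ?_⟩
  rw [Q.ord_one]
  have h3 : (0 : ℚ) ≤ m * (α - (1 - Δ Q)) := mul_nonneg (Nat.cast_nonneg _) (by linarith)
  push_cast
  rw [one_mul]
  linarith

/-- isomorphisms in codimension one which preserve the class of `Δ` -/
theorem pair_of_class {φ : K ≃ₐ[ℂ] K} {Δ : Place ℂ K → ℚ} (hiso : PseudoAut φ y)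
    (h : ClassLe φ y Δ) : PairClassLe (φ : K →ₐ[ℂ] K) y n Δ y Δ := by
  obtain ⟨B, hB, h1⟩ := h
  refine ⟨B, hB, fun m hm => ?_⟩
  obtain ⟨g, hg0, hg⟩ := h1 m hm
  refine ⟨g, hg0, fun Q hQ P e hPe => ?_⟩
  obtain rfl := ram_one hPe
  have hPQ : ∀ g, P.ord g = Q.ord (φ g) := fun g => by
    have := hPe.2 g
    rw [Nat.cast_one, one_mul] at this
    exact this.symm
  refine ⟨1 - Δ P, Or.inl ⟨(hiso P Q hPQ).2 hQ, le_rfl⟩, ?_⟩
  have h2 := hg P Q hQ hPQ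
  push_cast
  rw [one_mul, show (1 : ℚ) - Δ P - (1 - Δ Q) = Δ Q - Δ P by ring]
  exact h2

/-- canonical singularities -/
theorem pair_of_canonical (hy : NormalModel y) (hy' : NormalModel y')
    (hn : Algebra.trdeg ℂ K = n) (hn' : Algebra.trdeg ℂ K' = n) (hcan : Canonical y n)
    {Δ' : Place ℂ K' → ℚ} (hΔ' : ∀ P, IsPrimeDivisor y' P → 0 ≤ Δ' P) (π : K →ₐ[ℂ] K') :
    PairClassLe π y n 0 y' Δ' := by
  refine ⟨_, eff_zero, fun m hm => ⟨1, one_ne_zero, fun Q hQ P e hPe => ?_⟩⟩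
  obtain ⟨α, h1, h2⟩ := hcan.pullBackLe hy hy' hn hn' π Q hQ (fun h => h) P e hPe
  refine ⟨α, h1, ?_⟩
  rw [Q.ord_one]
  have h3 : (0 : ℚ) ≤ m * (e * α - (1 - Δ' Q)) :=
    mul_nonneg (Nat.cast_nonneg _) (by linarith [hΔ' Q hQ])
  push_cast
  linarith

end

end Pool.Agent.Helper13SM
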