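import Pool.Agent.Helper13SM.PPull
import Pool.Agent.N110.DV.Main
import Pool.Agent.N110.RK.Main

/-!
Birational self-maps which decrease the class of `K_X + Δ`: the rank theorem and the plateau theorem.
-/

set_option autoImplicit false
set_option linter.overlappingInstances false
set_option linter.unusedSectionVars false

open FF Module MvPolynomial Pool.Agent.W602.GT Pool.Agent.W603.LV
open Pool.Agent.Y172 Pool.Agent.Y191 Pool.Agent.R887 Pool.Agent.N110 Pool.Agent.N110.RK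
open Pool.Agent.N110.DV
open scoped ENNReal Topology

namespace Pool.Agent.Helper13SM

section

variable {K : Type} [Field K] [Algebra ℂ K] {N n : ℕ} {y : Fin (N + 1) → K} {Δ : Place ℂ K → ℚ}

/-- the exact numerical dimension -/
theorem exists_nuP {ν : ℕ} (hν : ν ≤ n) (hnum : ¬ NumDimLt y n Δ ν) :
    ∃ ν', ν ≤ ν' ∧ ν' ≤ n ∧ ¬ NumDimLt y n Δ ν' ∧ (ν' + 1 ≤ n → NumDimLt y n Δ (ν' + 1)) := by
  classical
  obtain ⟨ν', hν'⟩ : ∃ ν', ν' = Nat.findGreatest (fun k => ¬ NumDimLt y n Δ k) n := ⟨_, rfl⟩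
  have e1 : ν ≤ ν' := by rw [hν']; exact Nat.le_findGreatest hν hnum
  have e2 : ν' ≤ n := by rw [hν']; exact Nat.findGreatest_le n
  have e3 : ¬ NumDimLt y n Δ ν' := by
    rw [hν']
    exact Nat.findGreatest_spec (P := fun k => ¬ NumDimLt y n Δ k) hν hnum
  refine ⟨ν', e1, e2, e3, fun h => ?_⟩
  have := Nat.findGreatest_is_greatest (P := fun k => ¬ NumDimLt y n Δ k) (n := n)
    (k := ν' + 1) (by rw [← hν']; omega) h
  exact not_not.1 this

theorem wpulls_pair (hy : NormalModel y) (hn : Algebra.trdeg ℂ K = n) {φ : K ≃ₐ[ℂ] K}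
    (hφ : PairClassLe (φ : K →ₐ[ℂ] K) y n Δ y Δ) {x : Fin n → K}
    {E : Fin n → Derivation ℂ K K} (hx : IsTranscendenceBasis ℂ x)
    (hE : ∀ i j, E i (x j) = if i = j then 1 else 0) (hfr : IsFrame E) {c : Place ℂ K → ℤ}
    (hc : IsDisc y E c) : WPulls y c Δ φ := fun _ hA =>
  pair_pull hy hy hn hn hA hφ hx hE hfr hfr hc hc

/-- **The rank theorem** for pairs, without hypothesis on the growth. -/
theorem rank_spaceP (hy : NormalModel y) (hn : Algebra.trdeg ℂ K = n) (hn0 : 0 < n)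
    (hΔ : {P | IsPrimeDivisor y P ∧ Δ P ≠ 0}.Finite) {r : ℕ}
    {φ : (Fin r → ℤ) → (K ≃ₐ[ℂ] K)} (hφ : ∀ u v, φ (u + v) = φ u * φ v)
    (hcl : ∀ v, PairClassLe (φ v : K →ₐ[ℂ] K) y n Δ y Δ) {ν : ℕ} (hν : ν ≤ n)
    (hnum : ¬ NumDimLt y n Δ ν) :
    ∃ W : Submodule ℝ (Fin r → ℝ), (r + ν + 1 ≤ finrank ℝ W + n ∨ W = ⊤) ∧
      ∀ w ∈ W, Subexp φ y n w := by
  obtain ⟨i, hi⟩ := hy.ne
  obtain ⟨x, E, hx, hE⟩ := exists_crd hn (k := ℂ) (K := K)
  have hfr : IsFrame E := fun F => ⟨fun j => F (x j),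
    (Pool.Agent.W73.PG.PULL.expand x hx E hE F).symm⟩
  obtain ⟨c, hcfin, hc⟩ := exists_ordc hy hn hx hE
  have hc' : IsDisc y E c := hc
  obtain ⟨ν', e1, e2, e3, e4⟩ := exists_nuP hν hnum
  obtain ⟨m, M, c₁, ε, h⟩ := exists_rsysW hy hn hn0 hi hE hfr hcfin hc' hΔ hφ
    (fun v => wpulls_pair hy hn (hcl v) hx hE hfr hc') e2 e3 e4
  obtain ⟨W, hW1, hW2, hW⟩ := rank_dir stmJ stmC h
  refine ⟨W, ?_, fun w hw ε hε => ?_⟩
  · rcases Nat.lt_or_ge ν' n with h1 | h1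
    · have := hW1 h1
      left
      omega
    · right
      exact hW2 (le_antisymm e2 h1)
  · obtain ⟨B, hB⟩ := hW w hw ε hε
    refine ⟨B, fun l v hv => ?_⟩
    have h1 := hB l v hv
    rw [mixedDegree_eq hy hn hi (φ v) (by omega : 1 ≤ n), Multiset.replicate_one,
      Multiset.singleton_add, ← ENNReal.ofReal_natCast]
    exact ENNReal.ofReal_le_ofReal h1

/-- **The rank theorem** for pairs. -/
theorem rank_mainP (hy : NormalModel y) (hn : Algebra.trdeg ℂ K = n) (hn0 : 0 < n)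
    (hΔ : {P | IsPrimeDivisor y P ∧ Δ P ≠ 0}.Finite) {r s : ℕ} (hs : 0 < s)
    {φ : (Fin r → ℤ) → (K ≃ₐ[ℂ] K)} (hφ : ∀ u v, φ (u + v) = φ u * φ v)
    (hcl : ∀ v, PairClassLe (φ v : K →ₐ[ℂ] K) y n Δ y Δ)
    (hrank : GrowthRankGe φ y n s) : s < n ∧ NumDimLt y n Δ (n - s) := by
  have hsn : s < n := by
    obtain ⟨W, hW1, hW⟩ := rank_space_zero hy hn hn0 hφ
    have := hrank W hW
    omega
  refine ⟨hsn, ?_⟩
  by_contra hnum
  obtain ⟨W, hW1, hW⟩ := rank_spaceP hy hn hn0 hΔ hφ hcl (Nat.sub_le n s) hnum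
  have h2 := hrank W hW
  rcases hW1 with h1 | rfl
  · omega
  · rw [finrank_top, Module.finrank_fin_fun] at h2
    omega

/-- **The plateau theorem** for pairs, for the largest `ν`. -/
theorem plateauP_aux (hy : NormalModel y) (hn : Algebra.trdeg ℂ K = n)
    (hΔ : {P | IsPrimeDivisor y P ∧ Δ P ≠ 0}.Finite)
    {S : Set (K ≃ₐ[ℂ] K)} (h1 : ∀ φ ∈ S, PairClassLe (φ : K →ₐ[ℂ] K) y n Δ y Δ)
    (h2 : ∀ φ ∈ S, PairClassLe ((φ⁻¹ : K ≃ₐ[ℂ] K) : K →ₐ[ℂ] K) y n Δ y Δ)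
    {C₁ : ℕ} (hC₁ : ∀ φ ∈ S, mixedDegree φ y n 1 ≤ C₁) {ν : ℕ} (hν : ν ≤ n)
    (hnum : ¬ NumDimLt y n Δ ν) (hnum' : ν + 1 ≤ n → NumDimLt y n Δ (ν + 1)) :
    ∃ j, j + ν ≤ n ∧ ∀ a ≤ ν, ∀ p ≤ n, jointDegree S y n p ≤ jointDegree S y n (j + a) := by
  classical
  rcases Nat.eq_zero_or_pos n with rfl | hn0
  · refine ⟨0, by omega, fun a ha p hp => ?_⟩
    obtain rfl : a = 0 := by omega
    obtain rfl : p = 0 := by omega
    exact le_rfl
  obtain ⟨i, hi⟩ := hy.ne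
  obtain ⟨x, E, hx, hE⟩ := exists_crd hn (k := ℂ) (K := K)
  have hfr : IsFrame E := fun F => ⟨fun j => F (x j),
    (Pool.Agent.W73.PG.PULL.expand x hx E hE F).symm⟩
  obtain ⟨c, hcfin, hc⟩ := exists_ordc hy hn hx hE
  have hc' : IsDisc y E c := hc
  by_contra hcon
  push Not at hcon
  obtain ⟨d, hd⟩ : ∃ d : ℕ → ℕ → ℝ≥0∞, ∀ p l, d p l = ⨆ (w : List (K ≃ₐ[ℂ] K))
      (_ : w.length = l) (_ : ∀ φ ∈ w, φ ∈ S), mixedDegree w.prod y n p := ⟨_, fun _ _ => rfl⟩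
  have hdyn : ∀ p, jointDegree S y n p =
      Filter.limsup (fun l : ℕ => d p l ^ (1 / (l : ℝ))) Filter.atTop := by
    intro p
    unfold jointDegree
    congr 1
    funext l
    rw [hd]
  obtain ⟨p0, hp0, hmax⟩ := Finset.exists_max_image (Finset.range (n + 1))
    (fun p => jointDegree S y n p) ⟨0, by simp⟩
  rw [Finset.mem_range] at hp0
  have hcon' : ∀ j, j + ν ≤ n → ∃ a ≤ ν, jointDegree S y n (j + a) < jointDegree S y n p0 := by
    intro j hj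
    obtain ⟨a, ha, p, hp, hlt⟩ := hcon j hj
    exact ⟨a, ha, hlt.trans_le (hmax p (Finset.mem_range.2 (by omega)))⟩
  choose a ha halt using hcon'
  obtain ⟨B, hB⟩ : ∃ B : ℝ≥0∞, B = (Finset.range (n + 1)).sup fun j =>
      if hj : j + ν ≤ n then jointDegree S y n (j + a j hj) else 0 := ⟨_, rfl⟩
  have hBlt : B < jointDegree S y n p0 := by
    rw [hB, Finset.sup_lt_iff]
    · intro j _
      split_ifs with hj
      · exact halt j hj
      · exact zero_le.trans_lt (halt 0 (by omega))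
    · exact zero_le.trans_lt (halt 0 (by omega))
  obtain ⟨L₁, hL1, hL2⟩ := ENNReal.lt_iff_exists_nnreal_btwn.1 hBlt
  obtain ⟨L', hL3, hL4⟩ := ENNReal.lt_iff_exists_nnreal_btwn.1 hL2
  have hL0 : (0 : ℝ) < L₁ := by
    have : (0 : ℝ≥0∞) < L₁ := zero_le.trans_lt hL1
    exact_mod_cast this
  have hLL' : (L₁ : ℝ) < L' := by exact_mod_cast hL3
  obtain ⟨A, hA⟩ := growth_jointW hy hn hn0 hi hE hfr hcfin hc' hΔ
    (fun φ hφ => wpulls_pair hy hn (h1 φ hφ) hx hE hfr hc')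
    (fun φ hφ => wpulls_pair hy hn (h2 φ hφ) hx hE hfr hc')
    (C₁ := C₁) (fun φ hφ => by
    have h3 := hC₁ φ hφ
    rw [mixedDegree_eq hy hn hi φ (by omega : 1 ≤ n), Nat.cast_le, Multiset.replicate_one,
      Multiset.singleton_add] at h3
    exact h3) hν hnum hnum' hL0 hLL' (by
    intro j hj
    have h3 : jointDegree S y n (j + a j hj) < ENNReal.ofReal L₁ := by
      rw [ENNReal.ofReal_coe_nnreal]
      refine lt_of_le_of_lt ?_ hL1
      rw [hB]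
      have h4 := Finset.le_sup (s := Finset.range (n + 1))
        (f := fun j => if hj : j + ν ≤ n then jointDegree S y n (j + a j hj) else 0)
        (Finset.mem_range.2 (by omega : j < n + 1))
      simp only [dif_pos hj] at h4
      exact h4
    have ha' := ha j hj
    rw [hdyn] at h3
    obtain ⟨l0, hl0⟩ := ev_of_limsup hL0 h3
    refine ⟨a j hj, ha', 1, l0, fun w hw hwS => ?_⟩
    have h4 := hl0 w.length hw
    have h5 : mixedDegree w.prod y n (j + a j hj) ≤ d (j + a j hj) w.length := by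
      rw [hd]
      exact le_iSup_of_le w (le_iSup_of_le rfl (le_iSup_of_le hwS le_rfl))
    have h6 := h5.trans h4
    rw [mixedDegree_eq hy hn hi w.prod (by omega)] at h6
    have h7 := (ENNReal.le_ofReal_iff_toReal_le (ENNReal.natCast_ne_top _) (by positivity)).1 h6
    rw [one_mul]
    simpa using h7)
  have h3 : jointDegree S y n p0 ≤ ENNReal.ofReal L' := by
    rw [hdyn p0]
    refine limsup_of_bd (A := A) (hL0.trans hLL') fun l => ?_
    rw [hd]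
    refine iSup_le fun w => iSup_le fun hw => iSup_le fun hwS => ?_
    rw [mixedDegree_eq hy hn hi w.prod (by omega : p0 ≤ n), ← ENNReal.ofReal_natCast]
    refine ENNReal.ofReal_le_ofReal ?_
    rw [← hw]
    exact hA w hwS p0 (by omega)
  rw [ENNReal.ofReal_coe_nnreal] at h3
  exact absurd hL4 (not_lt.2 h3)

/-- **The plateau theorem** for pairs. -/
theorem plateauP (hy : NormalModel y) (hn : Algebra.trdeg ℂ K = n)
    (hΔ : {P | IsPrimeDivisor y P ∧ Δ P ≠ 0}.Finite)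
    {S : Set (K ≃ₐ[ℂ] K)} (h1 : ∀ φ ∈ S, PairClassLe (φ : K →ₐ[ℂ] K) y n Δ y Δ)
    (h2 : ∀ φ ∈ S, PairClassLe ((φ⁻¹ : K ≃ₐ[ℂ] K) : K →ₐ[ℂ] K) y n Δ y Δ)
    {C₁ : ℕ} (hC₁ : ∀ φ ∈ S, mixedDegree φ y n 1 ≤ C₁) {ν : ℕ} (hν : ν ≤ n)
    (hnum : ¬ NumDimLt y n Δ ν) :
    ∃ j, j + ν ≤ n ∧ ∀ a ≤ ν, ∀ p ≤ n, jointDegree S y n p ≤ jointDegree S y n (j + a) := by
  obtain ⟨ν', e1, e2, e3, e4⟩ := exists_nuP hν hnum
  obtain ⟨j, hj, h⟩ := plateauP_aux hy hn hΔ h1 h2 hC₁ e2 e3 e4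
  exact ⟨j, by omega, fun a ha p hp => h a (by omega) p hp⟩

end

end Pool.Agent.Helper13SM
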