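import Pool.Agent.Helper13SM.PDefs
import Pool.Agent.N110.QPull
import Pool.Agent.N110.DV.Im

/-!
The pull back of the sections of `m (K_X + Δ) + b A` by rational maps which decrease the class of
`K_X + Δ`.
-/

set_option autoImplicit false
set_option linter.overlappingInstances false
set_option linter.unusedSectionVars false

open FF Module MvPolynomial Pool.Agent.W602.GT Pool.Agent.W603.LV
open Pool.Agent.Y172 Pool.Agent.Y191 Pool.Agent.R887 Pool.Agent.W619.PQ Pool.Agent.N110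
open Pool.Agent.N110.DV Pool.Agent.N110.IM

namespace Pool.Agent.Helper13SM

section

variable {K K' : Type} [Field K] [Algebra ℂ K] [Field K'] [Algebra ℂ K'] {N N' n : ℕ}
  {y : Fin (N + 1) → K} {y' : Fin (N' + 1) → K'}

/-- **The pull back of sections.** -/
theorem pair_pull (hy : NormalModel y) (hy' : NormalModel y') (hn : Algebra.trdeg ℂ K = n)
    (hn' : Algebra.trdeg ℂ K' = n) {Δ A : Place ℂ K → ℚ} (hA : Effective y A)
    {Δ' : Place ℂ K' → ℚ} {ψ : K →ₐ[ℂ] K'} (hψ : PairClassLe ψ y n Δ y' Δ') {x : Fin n → K}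
    {E : Fin n → Derivation ℂ K K} (hx : IsTranscendenceBasis ℂ x)
    (hE : ∀ i j, E i (x j) = if i = j then 1 else 0) (hfr : IsFrame E)
    {E' : Fin n → Derivation ℂ K' K'} (hfr' : IsFrame E') {c : Place ℂ K → ℤ}
    (hc : IsDisc y E c) {c' : Place ℂ K' → ℤ} (hc' : IsDisc y' E' c') :
    ∃ A' : Place ℂ K' → ℚ, Effective y' A' ∧ ∀ m : ℕ, 1 ≤ m → ∃ J : K', J ≠ 0 ∧ ∀ b : ℕ, 1 ≤ b →
      ∀ g ∈ Lsp y c m (m • Δ + b • A), J * ψ g ∈ Lsp y' c' m (m • Δ' + b • A') := by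
  classical
  have hess := hy.ess
  have hess' := hy'.ess
  let _ : Algebra K K' := ψ.toRingHom.toAlgebra
  have hst : IsScalarTower ℂ K K' :=
    IsScalarTower.of_algebraMap_eq fun c => (ψ.commutes c).symm
  have hfd : FiniteDimensional K K' := finite_map hn hn'
  obtain ⟨B, hB, hψ⟩ := hψ
  choose s hsc hs0 hs using fun j => disc_bound2 (Δ := Δ) (n := n) hy hA hfr j
  have hfin : {Q : Place ℂ K' | IsPrimeDivisor y' Q ∧ ∑ j, |(Q.ord (ψ (s j)) : ℚ)| ≠ 0}.Finite := by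
    refine (Set.finite_iUnion fun j => finite_ord hy' (f := ψ (s j))
      (by rw [Ne, map_eq_zero]; exact hs0 j)).subset ?_
    rintro Q ⟨hQ, h0⟩
    by_contra hcon
    simp only [Set.mem_iUnion, not_exists] at hcon
    apply h0
    refine Finset.sum_eq_zero fun j _ => ?_
    have h1 : Q.ord (ψ (s j)) = 0 := by
      by_contra h2
      exact hcon j ⟨hQ, h2⟩
    rw [h1]
    simp
  refine ⟨fun Q => B Q + ∑ j, |(Q.ord (ψ (s j)) : ℚ)|, ⟨fun Q hQ => add_nonneg (hB.1 Q hQ)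
    (Finset.sum_nonneg fun _ _ => abs_nonneg _), ?_⟩, fun m hm => ?_⟩
  · refine (hB.2.union hfin).subset ?_
    rintro Q ⟨hQ, h0⟩
    by_cases h1 : B Q = 0
    · right
      refine ⟨hQ, fun h2 => h0 ?_⟩
      simp only []
      rw [h1, h2, add_zero]
    · exact Or.inl ⟨hQ, h1⟩
  obtain ⟨h, hh0, hh⟩ := hψ m hm
  have hdet : (Matrix.of fun i j => E' i (ψ (x j))).det ≠ 0 := pull_ne hn hE hfr'
  refine ⟨h * (Matrix.of fun i j => E' i (ψ (x j))).det ^ m,
    mul_ne_zero hh0 (pow_ne_zero _ hdet), fun b hb g hg Q hQ => ?_⟩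
  have hω := frm_pluri (n := n) x m g
  have hωE : frm x m g E = g := frm_self hE m g
  have hsec : IsSection y n m (m • Δ + b • A) (frm x m g) := by
    rw [isSection_iff hc hω, hωE]
    exact hg
  have hov := over_bel K Q
  obtain ⟨α, hα, hα1⟩ := hh Q hQ (bel K Q) (ram K Q) hov
  obtain ⟨j, hj⟩ := exists_centred hy (bel K Q)
  have h2 := hs j (bel K Q) hj α hα m b hm _ hsec
  have hdQ : Divisorial n Q := hQ.divisorial hy' hn'
  have hPd : Divisorial n (bel K Q) := divisorial_down hov hdQ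
  obtain ⟨c1, hc1⟩ : ∃ c1 : ℤ, c1 = ⌈(m : ℚ) * (α - 1)⌉ - b * (bel K Q).ord (s j) := ⟨_, rfl⟩
  have h3 : OrdGe (bel K Q) (frm x m g) c1 := by
    intro E' hE'
    refine (h2 E' hE').imp_right fun h => ?_
    have h3 : (m : ℚ) * (α - 1) ≤
        (((bel K Q).ord (frm x m g E') + b * (bel K Q).ord (s j) : ℤ) : ℚ) := by
      push_cast
      linarith
    have h4 := Int.ceil_le.2 h3
    rw [hc1]
    have h5 : ⌈(m : ℚ) * (α - 1)⌉ - b * (bel K Q).ord (s j) ≤
        (bel K Q).ord (frm x m g E') := by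
      omega
    exact_mod_cast h5
  have h4 : OrdGe Q (pull K' x E m (frm x m g)) ((m * (ram K Q - 1) + ram K Q * c1 : ℤ) : ℚ) := by
    intro D hD
    exact (pull_ord (K' := K') hn hx hE hov hPd hω h3 hD).imp_right fun h5 => by exact_mod_cast h5
  have h5 := (hc' Q hQ m _ (pull_pluri x E m _) _).1 h4
  have h6 : pull K' x E m (frm x m g) E' =
      (Matrix.of fun i j => E' i (ψ (x j))).det ^ m * ψ g := by
    unfold pull
    rw [hωE]
    rfl
  rw [h6] at h5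
  by_cases hg0 : (Matrix.of fun i j => E' i (ψ (x j))).det ^ m * ψ g = 0
  · left
    rw [mul_assoc, hg0, mul_zero]
  right
  have h5 := h5.resolve_left hg0
  rw [mul_assoc, Q.ord_mul hh0 hg0, hc1] at *
  have h7 : (Q.ord (ψ (s j)) : ℚ) ≤ ∑ j, |(Q.ord (ψ (s j)) : ℚ)| := by
    refine (le_abs_self _).trans ?_
    exact Finset.single_le_sum (f := fun j => |(Q.ord (ψ (s j)) : ℚ)|)
      (fun _ _ => abs_nonneg _) (Finset.mem_univ j)
  have h8 : Q.ord (ψ (s j)) = ram K Q * (bel K Q).ord (s j) := hov.2 (s j)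
  have h9 : (m : ℚ) * (α - 1) ≤ ⌈(m : ℚ) * (α - 1)⌉ := Int.le_ceil _
  have hram : (0 : ℚ) ≤ ram K Q := Nat.cast_nonneg _
  have h10 := mul_le_mul_of_nonneg_left h9 hram
  have hm0 : (0 : ℚ) ≤ m := Nat.cast_nonneg _
  have hb0 : (1 : ℚ) ≤ b := by exact_mod_cast hb
  have h12 := mul_le_mul_of_nonneg_left h7 (zero_le_one.trans hb0)
  have h13 : (Q.ord (ψ (s j)) : ℚ) = ram K Q * (bel K Q).ord (s j) := by exact_mod_cast h8
  have h14 : B Q ≤ b * B Q := le_mul_of_one_le_left (hB.1 Q hQ) hb0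
  rw [h13] at h12
  rw [Pi.add_apply, Pi.smul_apply, Pi.smul_apply, nsmul_eq_mul, nsmul_eq_mul]
  push_cast at h5 ⊢
  nlinarith

/-- **The numerical dimension of images.** -/
theorem nuLt_img_of (hy : NormalModel y) (hy' : NormalModel y') (hn : Algebra.trdeg ℂ K = n)
    (hn' : Algebra.trdeg ℂ K' = n) {L : Place ℂ K → ℚ} {L' : Place ℂ K' → ℚ} {π : K →ₐ[ℂ] K'}
    (hπ : ∀ A, Effective y A → ∃ B, Effective y' B ∧ ∀ m : ℕ, 1 ≤ m → ∃ J : K', J ≠ 0 ∧
      ∀ b : ℕ, 1 ≤ b → ∀ g, SecD y (m • L + b • A) g → SecD y' (m • L' + b • B) (J * π g))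
    {j : ℕ} (hj : j ≤ n) (h : NuLt y' n L' j) : NuLt y n L j := by
  classical
  intro A hA ε hε
  obtain ⟨i, hi⟩ := hy.ne
  obtain ⟨i', hi'⟩ := hy'.ne
  have hess' := hy'.ess
  obtain ⟨A', hA', hpull⟩ := hπ A hA
  obtain ⟨B, hB⟩ := replace_img (y := y) hy' hn' hi' π hi
  obtain ⟨t, ht, m₀, hm₀⟩ := h A' hA' (ε / ((B : ℝ) ^ (n - j) + 1)) (by positivity)
  obtain ⟨q₀, hq₀⟩ := exists_nat_gt (1 / t)
  refine ⟨t, ht, max m₀ (q₀ + 1), fun m b hm hb u hu g hg hg0 => ?_⟩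
  have hm1 : 1 ≤ m := le_trans (Nat.le_add_left 1 q₀) ((le_max_right _ _).trans hm)
  have hmt : (1 : ℝ) ≤ t * m := by
    have h1 : (q₀ : ℝ) ≤ m := by
      exact_mod_cast (Nat.le_succ q₀).trans ((le_max_right _ _).trans hm)
    rw [div_lt_iff₀ ht] at hq₀
    nlinarith
  obtain ⟨w, hw⟩ : ∃ w : Fin j → K, w = fun a => g a.succ / g 0 := ⟨_, rfl⟩
  rw [← hw]
  -- the sections
  obtain ⟨J, hJ, hpull'⟩ := hpull m hm1
  obtain ⟨b', hb'⟩ : ∃ b', b' = max b 1 := ⟨_, rfl⟩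
  have hb1 : 1 ≤ b' := by rw [hb']; exact le_max_right _ _
  have hbt : (b' : ℝ) ≤ t * m := by
    rw [hb']
    push_cast
    exact max_le hb hmt
  obtain ⟨g', hg'⟩ : ∃ g' : Fin (j + 1) → K', ∀ a, g' a = J * π (g a) := ⟨_, fun _ => rfl⟩
  have hsec : ∀ a, SecD y' (m • L' + b' • A') (g' a) := by
    intro a
    rw [hg']
    refine hpull' b' hb1 _ fun P hP => ?_
    refine (hg a P hP).imp_right fun h1 => le_trans ?_ h1
    rw [sm2, sm2]
    have h2 := hA.1 P hP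
    have h3 : (b : ℚ) ≤ b' := by
      rw [hb']
      exact_mod_cast le_max_left b 1
    have h4 := mul_le_mul_of_nonneg_right h3 h2
    linarith
  have hrat : (fun a : Fin j => g' a.succ / g' 0) = fun a => π (w a) := by
    funext a
    rw [hg', hg', hw, mul_div_mul_left _ _ hJ, ← map_div₀]
  -- the degrees
  obtain ⟨hpos, e0⟩ := mapDegree_img hn hn' hess' π u w
  have e1 : degreeOver (fun a => π (u a)) (fun a => π (w a)) =
      degreeOver u w * mapDegree π := by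
    rw [degreeOver_eq, degreeOver_eq]
    exact e0
  have e2 : degreeOver (fun a => π (u a)) (fun a => π (w a)) =
      dm ℂ ((toM u).map π + toM (fun a => π (w a))) := by
    refine deg_dm ?_ (toM_set _)
    ext x
    change x ∈ (toM u).map π ↔ _
    rw [Multiset.mem_map, Set.mem_range]
    constructor
    · rintro ⟨a, ha, rfl⟩
      obtain ⟨j, rfl⟩ := mem_toM.1 ha
      exact ⟨j, rfl⟩
    · rintro ⟨j, rfl⟩
      exact ⟨u j, mem_toM.2 ⟨j, rfl⟩, rfl⟩
  obtain ⟨Q', hQ'1, hQ'2, hle⟩ := hB (toM u) (toM (fun a => π (w a)))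
    (by rw [Multiset.card_add, Multiset.card_map, toM_card, toM_card]; omega) (fun z hz => by
      obtain ⟨a, rfl⟩ := mem_toM.1 hz
      exact hu a)
  rw [toM_card] at hQ'1 hle
  obtain ⟨v, hv⟩ := exists_fin Q' hQ'1
  have hvp : ∀ a, IsPencil y' (v a) := by
    intro a
    refine pencil_span hi' (hQ'2 _ ?_)
    have : v a ∈ {x | x ∈ Q'} := by
      rw [hv]
      exact ⟨a, rfl⟩
    exact this
  have e3 : degreeOver v (fun a => π (w a)) = dm ℂ (Q' + toM (fun a => π (w a))) :=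
    deg_dm hv (toM_set _)
  have h3 := hm₀ m b' (le_trans (le_max_left _ _) hm) hbt v hvp g' hsec (by
    rw [hg']
    exact mul_ne_zero hJ (by rwa [Ne, map_eq_zero]))
  rw [hrat] at h3
  have h4 : degreeOver u w ≤ B ^ (n - j) * degreeOver v (fun a => π (w a)) := by
    rw [e3]
    refine le_trans ?_ hle
    rw [← e2, e1]
    exact Nat.le_mul_of_pos_right _ hpos
  have h5 : (degreeOver u w : ℝ) ≤ (B : ℝ) ^ (n - j) * degreeOver v (fun a => π (w a)) := by
    exact_mod_cast h4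
  refine h5.trans ?_
  have h6 : (B : ℝ) ^ (n - j) * degreeOver v (fun a => π (w a)) ≤
      (B : ℝ) ^ (n - j) * (ε / ((B : ℝ) ^ (n - j) + 1) * m ^ j) :=
    mul_le_mul_of_nonneg_left h3 (by positivity)
  refine h6.trans ?_
  have h7 : (B : ℝ) ^ (n - j) * (ε / ((B : ℝ) ^ (n - j) + 1) * m ^ j) =
      ((B : ℝ) ^ (n - j) / ((B : ℝ) ^ (n - j) + 1)) * (ε * m ^ j) := by ring
  rw [h7]
  have h8 : (B : ℝ) ^ (n - j) / ((B : ℝ) ^ (n - j) + 1) ≤ 1 := by
    rw [div_le_one (by positivity)]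
    linarith
  have h9 : 0 ≤ ε * (m : ℝ) ^ j := by positivity
  nlinarith

/-- **The numerical dimension of images.** -/
theorem numDimLt_imgP (hy : NormalModel y) (hy' : NormalModel y') (hn : Algebra.trdeg ℂ K = n)
    (hn' : Algebra.trdeg ℂ K' = n) {Δ : Place ℂ K → ℚ} {Δ' : Place ℂ K' → ℚ} {π : K →ₐ[ℂ] K'}
    (hπ : PairClassLe π y n Δ y' Δ') {j : ℕ} (hj : j ≤ n)
    (h : NumDimLt y' n Δ' j) : NumDimLt y n Δ j := by
  obtain ⟨x, E, hx, hE⟩ := exists_crd hn (k := ℂ) (K := K)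
  have hfr : IsFrame E := fun F => ⟨fun j => F (x j),
    (Pool.Agent.W73.PG.PULL.expand x hx E hE F).symm⟩
  obtain ⟨c, hcfin, hc⟩ := exists_ordc hy hn hx hE
  have hc : IsDisc y E c := hc
  obtain ⟨x', E', hx', hE'⟩ := exists_crd hn' (k := ℂ) (K := K')
  have hfr' : IsFrame E' := fun F => ⟨fun j => F (x' j),
    (Pool.Agent.W73.PG.PULL.expand x' hx' E' hE' F).symm⟩
  obtain ⟨c', hcfin', hc'⟩ := exists_ordc hy' hn' hx' hE'
  have hc' : IsDisc y' E' c' := hc'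
  have e1 : sh c (fun P => Δ P + c P) = Δ := by
    funext P
    unfold sh
    ring
  have e2 : sh c' (fun P => Δ' P + c' P) = Δ' := by
    funext P
    unfold sh
    ring
  have h1 : NuLt y' n (fun P => Δ' P + c' P) j := by
    rw [← nuLt_iff hE' hfr' hc', e2]
    exact h
  have h2 : NuLt y n (fun P => Δ P + c P) j := by
    refine nuLt_img_of hy hy' hn hn' (π := π) (fun A hA => ?_) hj h1
    obtain ⟨A', hA', h3⟩ := pair_pull hy hy' hn hn' hA hπ hx hE hfr hfr' hc hc'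
    refine ⟨A', hA', fun m hm => ?_⟩
    obtain ⟨J, hJ, h4⟩ := h3 m hm
    refine ⟨J, hJ, fun b hb g hg => ?_⟩
    rw [← lsp_iff (c := c), e1] at hg
    rw [← lsp_iff (c := c'), e2]
    exact h4 b hb g hg
  rw [← nuLt_iff hE hfr hc, e1] at h2
  exact h2

end

end Pool.Agent.Helper13SM
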